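import Pool.Agent.Y163.MW.Base

/-!
# Project MW, job MW-H: ranks of the powers of `N` and the second moment
-/

set_option autoImplicit false

open Module

namespace Pool.Agent.Y461.MW

open Pool.Agent.Y163.MW

universe u v

section

variable {K : Type u} [Field K] {V : Type v} [AddCommGroup V] [Module K V]
  {gr : ℤ → Submodule K V} {N : Module.End K V}

theorem pow_b (S : Strings gr N) (k : ℕ) (s : S.ι) (i : ℕ) (hi : i < S.len s + 1) :
    (N ^ k) (S.b ⟨s, ⟨i, hi⟩⟩) =
      if h : i + k < S.len s + 1 then S.b ⟨s, ⟨i + k, h⟩⟩ else 0 := by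
  induction k with
  | zero => simp [hi]
  | succ k ih =>
    rw [pow_succ', Module.End.mul_apply, ih]
    by_cases h1 : i + k < S.len s + 1
    · rw [dif_pos h1]
      by_cases h2 : i + k = S.len s
      · rw [dif_neg (by omega)]
        have h3 : (⟨i + k, h1⟩ : Fin (S.len s + 1)) = Fin.last (S.len s) := Fin.ext h2
        rw [h3]
        exact S.last s
      · rw [dif_pos (by omega)]
        exact S.succ s ⟨i + k, by omega⟩
    · rw [dif_neg h1, dif_neg (by omega), map_zero]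

theorem range_eq (S : Strings gr N) (k : ℕ) : LinearMap.range (N ^ k) =
    Submodule.span K (Set.range fun q : {p : Σ s : S.ι, Fin (S.len s + 1) // k ≤ (p.2 : ℕ)} =>
      S.b q.1) := by
  apply le_antisymm
  · rw [LinearMap.range_eq_map, ← S.b.span_eq, Submodule.map_span, Submodule.span_le]
    rintro _ ⟨_, ⟨⟨s, ⟨i, hi⟩⟩, rfl⟩, rfl⟩
    rw [pow_b]
    split
    · rename_i h
      exact Submodule.subset_span ⟨⟨⟨s, ⟨i + k, h⟩⟩, by simp⟩, rfl⟩
    · exact zero_mem _
  · rw [Submodule.span_le]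
    rintro _ ⟨⟨⟨s, ⟨i, hi⟩⟩, hk⟩, rfl⟩
    simp only at hk
    refine ⟨S.b ⟨s, ⟨i - k, by omega⟩⟩, ?_⟩
    rw [pow_b, dif_pos (by omega)]
    congr 3
    omega

theorem card_eq (l k : ℕ) : (∑ i : Fin (l + 1), if k ≤ (i : ℕ) then 1 else 0) = l + 1 - k := by
  rw [Fin.sum_univ_eq_sum_range (fun i => if k ≤ i then 1 else 0) (l + 1), ← Finset.sum_filter,
    Finset.sum_const, smul_eq_mul, mul_one]
  have h : (Finset.range (l + 1)).filter (fun i => k ≤ i) = Finset.Ico k (l + 1) := by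
    ext i
    simp only [Finset.mem_filter, Finset.mem_range, Finset.mem_Ico]
    omega
  rw [h, Nat.card_Ico]

theorem finrank_eq (S : Strings gr N) (k : ℕ) :
    finrank K (LinearMap.range (N ^ k)) = ∑ s : S.ι, (S.len s + 1 - k) := by
  classical
  have hli : LinearIndependent K fun q : {p : Σ s : S.ι, Fin (S.len s + 1) // k ≤ (p.2 : ℕ)} =>
      S.b q.1 := S.b.linearIndependent.comp _ Subtype.val_injective
  rw [range_eq S k, finrank_span_eq_card hli, Fintype.card_subtype, Finset.card_filter,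
    Fintype.sum_sigma]
  exact Finset.sum_congr rfl fun s _ => card_eq _ _

theorem sum1 (c : ℤ) (n : ℕ) : 3 * ∑ k ∈ Finset.range n, 2 * (k : ℤ) * (c - k) =
    3 * c * n * (n - 1) - n * (n - 1) * (2 * n - 1) := by
  induction n with
  | zero => simp
  | succ n ih => rw [Finset.sum_range_succ, mul_add, ih]; push_cast; ring

theorem sum2 (c : ℤ) (n : ℕ) : 3 * ∑ k ∈ Finset.range n, (c - 2 * (k : ℤ)) ^ 2 =
    3 * c ^ 2 * n - 6 * c * n * (n - 1) + 2 * n * (n - 1) * (2 * n - 1) := by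
  induction n with
  | zero => simp
  | succ n ih => rw [Finset.sum_range_succ, mul_add, ih]; push_cast; ring

theorem key (l B : ℕ) (hB : l + 1 ≤ B) :
    ∑ k ∈ Finset.range B, 2 * (k : ℤ) * ((l + 1 - k : ℕ) : ℤ) =
      ∑ i : Fin (l + 1), ((l : ℤ) - 2 * ((i : ℕ) : ℤ)) ^ 2 := by
  rw [Fin.sum_univ_eq_sum_range (fun i => ((l : ℤ) - 2 * (i : ℤ)) ^ 2) (l + 1)]
  have h1 : ∑ k ∈ Finset.range B, 2 * (k : ℤ) * ((l + 1 - k : ℕ) : ℤ) =
      ∑ k ∈ Finset.range (l + 1), 2 * (k : ℤ) * (((l : ℤ) + 1) - k) := by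
    rw [← Finset.sum_subset (Finset.range_subset_range.2 hB)]
    · refine Finset.sum_congr rfl fun k hk => ?_
      rw [Finset.mem_range] at hk
      rw [Nat.cast_sub (by omega)]
      push_cast
      ring
    · intro k _ hk
      rw [Finset.mem_range, not_lt] at hk
      rw [Nat.sub_eq_zero_of_le hk]
      simp
  rw [h1]
  have h2 := sum1 ((l : ℤ) + 1) (l + 1)
  have h3 := sum2 (l : ℤ) (l + 1)
  have h4 : (3 : ℤ) * ∑ k ∈ Finset.range (l + 1), 2 * (k : ℤ) * (((l : ℤ) + 1) - k) =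
      3 * ∑ k ∈ Finset.range (l + 1), ((l : ℤ) - 2 * (k : ℤ)) ^ 2 := by
    rw [h2, h3]
    push_cast
    ring
  exact mul_left_cancel₀ (by norm_num) h4

end

theorem h : StH.{u, v} := by
  intro K _ V _ _ gr N S
  have h1 : ∀ k : ℕ, 2 * (k : ℤ) * (finrank K (LinearMap.range (N ^ k)) : ℤ) =
      ∑ s : S.ι, 2 * (k : ℤ) * ((S.len s + 1 - k : ℕ) : ℤ) := by
    intro k
    rw [finrank_eq S k, Nat.cast_sum, Finset.mul_sum]
  have hB : ∀ s : S.ι, S.len s + 1 ≤ ∑ s : S.ι, (S.len s + 1) := fun s =>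
    Finset.single_le_sum (f := fun s : S.ι => S.len s + 1) (fun _ _ => Nat.zero_le _)
      (Finset.mem_univ s)
  rw [finsum_congr h1, finsum_eq_sum_of_support_subset (s := Finset.range (∑ s : S.ι, (S.len s + 1))),
    Finset.sum_comm, Fintype.sum_sigma]
  · exact Finset.sum_congr rfl fun s _ => key _ _ (hB s)
  · intro k hk
    rw [Function.mem_support] at hk
    rw [Finset.coe_range, Set.mem_Iio]
    by_contra hn
    apply hk
    refine Finset.sum_eq_zero fun s _ => ?_
    have := hB s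
    rw [Nat.sub_eq_zero_of_le (by omega)]
    simp

end Pool.Agent.Y461.MW
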